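import Pool.Agent.H50.TV.Fin

/-!
# MP_bde085_nt: central values twisted by characters of one parity are enough for Q1

For a form `f = ∑ a(n) e(nz)` and a primitive Dirichlet character `χ` whose conductor `d` is prime to
the level, `HasLVal a χ L` says that `L = L(f, χ, 1)` is the limit of
`∑ χ(k) a(k) / k e ^ (-2 π k y)` for `y → 0+`.

`NewformOrTwist`: the newforms of the problem, and their twists by the odd quadratic characters
modulo primes prime to the level. `Twisted`: only these twists.

* `EvenValues 𝓕 D`: there are `κ`, `C` with `|L(f, χ, 1)| ≤ C N ^ κ Ω₁` for all forms of the family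
  `𝓕` of all levels `N` and all EVEN primitive `χ` of conductor prime to `N` and at most `D N`.
* `OddValues 𝓕 D`: there are `κ`, `C` with `|L(f, χ, 1)| ≤ C N ^ κ Im(Ω₂)` for all ODD ones.
* `EvenGrowth 𝓕`, `OddGrowth 𝓕`: the same for all conductors `d` prime to `N`, with the additional
  factor `√d (1 + log d)`.

`condBound N = 9 * 64 ^ ω(N) * N = N ^ (1 + o(1))`.

The theorem: the values exist, and Q1 (`EntriesAtMost 2`) is equivalent to the bound for the even
characters alone (so only the real period `Ω₁` occurs), to the bound for the odd characters alone
(so only `Im(Ω₂)` occurs), and to the bounds for both parities for the twists alone.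
-/

namespace Pool.Agent.Results.MP_bde085_nt.OneParity

open Pool.Agent.TH133.SH Pool.Agent.K4H67.TV Pool.Agent.Q127.SM Pool.Agent.H50.TV

/-- **Q1 is equivalent to the polynomial bound, relative to the real period, of the central values
twisted by the even characters alone, and to the polynomial bound, relative to the imaginary period,
of the central values twisted by the odd characters alone, for newforms and their twists.** -/
theorem result :
    (∀ (N : ℕ) (a : ℕ → ℤ), 1 ≤ N → NewformOrTwist N a → ∀ d : ℕ, 1 ≤ d → d.Coprime N →
      ∀ χ : DirichletCharacter ℂ d, χ.IsPrimitive → ∃ L : ℂ, HasLVal a χ L) ∧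
    List.TFAE [EntriesAtMost 2,
      EvenValues NewformOrTwist condBound, OddValues NewformOrTwist condBound,
      EvenValues Twisted condBound ∧ OddValues Twisted condBound,
      ∀ A : ℕ, EvenValues NewformOrTwist (fun N => N ^ A),
      ∀ A : ℕ, OddValues NewformOrTwist (fun N => N ^ A),
      EvenGrowth NewformOrTwist, OddGrowth NewformOrTwist] :=
  ⟨exists_values, Pool.Agent.H50.TV.main⟩

end Pool.Agent.Results.MP_bde085_nt.OneParity
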