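import Pool.Agent.H52.SH.Dets
import Pool.Graph.R_pool_sql_team_seeded_c8625f6e.K4H13.CV.Ex2

/-!
# The Shimura map on average over all newforms of prime level
-/

set_option autoImplicit false

open Complex UpperHalfPlane MatrixGroups CongruenceSubgroup

namespace Pool.Agent.Results.MP_bde085_nt.ShimuraMapOnAverage

/-- the cusp forms of weight 2 for `Γ₀(N)` -/
abbrev S2 (N : ℕ) : Type := CuspForm (Gamma0 N : Subgroup (GL (Fin 2) ℝ)) 2

/-- the newforms: `a(1) = 1`, real coefficients, Hecke relations, and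
`f(-1/(Nz)) = - ε N z² f(z)` with `ε = 1` or `ε = -1` (see `W388.IsNewf`) -/
def Newforms (N : ℕ) : Set (S2 N) := {f | ∃ ε : ℝ, W388.IsNewf N 2 f ε}

/-- `F(τ) = ∑ a(n)/n e^(2πinτ)` -/
noncomputable def F {N : ℕ} (f : S2 N) (τ : ℂ) : ℂ :=
  ∑' n : ℕ, (qExpansion 1 f).coeff n / n * Complex.exp (2 * Real.pi * Complex.I * n * τ)

/-- the Shimura map `H_f(γ) = F(γ i) - F(i)` -/
noncomputable def H {N : ℕ} (f : S2 N) (γ : Gamma0 N) : ℂ :=
  F f (((γ : SL(2, ℤ)) • UpperHalfPlane.I : ℍ) : ℂ) - F f Complex.I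

/-- the real parts (or the imaginary parts) of `H_f(γ)` for the forms `f = f₁, ..., f_g` -/
noncomputable def vec {N g : ℕ} (f : Fin g → S2 N) (part : ℂ → ℝ) (γ : Gamma0 N) : Fin g → ℝ :=
  fun j => part (H (f j) γ)

open Pool.Agent.K4H13.CV Pool.Agent.Y18.BSD Pool.Agent.H52.SH

theorem H_eq {N : ℕ} [NeZero N] (f : S2 N) (γ : Gamma0 N) : H f γ = per f γ := by
  have h := per_spec f γ UpperHalfPlane.I
  have h2 : H f γ = Pool.Agent.TH940.prim f (((γ : SL(2, ℤ)) • UpperHalfPlane.I : ℍ) : ℂ) -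
      Pool.Agent.TH940.prim f ((UpperHalfPlane.I : ℍ) : ℂ) := rfl
  rw [h2, h]
  ring

/-- `H_f(γ) = F(γ z) - F(z)` for every point `z` of the upper half-plane -/
theorem H_spec {N : ℕ} [NeZero N] (f : S2 N) (γ : Gamma0 N) (z : ℍ) :
    H f γ = F f (((γ : SL(2, ℤ)) • z : ℍ) : ℂ) - F f (z : ℂ) := by
  rw [H_eq]
  have h := per_spec f γ z
  have h2 : F f (((γ : SL(2, ℤ)) • z : ℍ) : ℂ) - F f (z : ℂ) =
      Pool.Agent.TH940.prim f (((γ : SL(2, ℤ)) • z : ℍ) : ℂ) - Pool.Agent.TH940.prim f (z : ℂ) := rfl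
  rw [h2, h]
  ring

theorem result (N : ℕ) (hN : N.Prime) (h3 : 3 ≤ N) :
    ∃ (g : ℕ) (f : Fin g → S2 N), Function.Injective f ∧ Set.range f = Newforms N ∧
      Submodule.span ℂ (Set.range f) = ⊤ ∧ N ≤ 12 * g + 13 ∧ 2 * g ≤ N ∧
      (∀ (γ : Gamma0 N) (k : ℝ), 0 ≤ k → |(((γ : SL(2, ℤ)) 1 0 : ℤ) : ℝ)| ≤ (N : ℝ) ^ k →
        ∀ j, ‖H (f j) γ‖ ≤ (N : ℝ) ^ (2 * k + 2)) ∧
      ∀ part : ℂ → ℝ, part = Complex.re ∨ part = Complex.im →
        (∀ γ : Gamma0 N, (N : ℝ) ^ (-(662 * (g : ℝ))) ≤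
          ∏ j with vec f part γ j ≠ 0, |vec f part γ j|) ∧
        (∀ γ : Fin g → Gamma0 N, (Matrix.of fun i => vec f part (γ i)).det ≠ 0 →
          (N : ℝ) ^ (-(305 * (g : ℝ))) ≤ |(Matrix.of fun i => vec f part (γ i)).det|) ∧
        ∀ K A : ℝ, 0 ≤ K → 0 < A →
          (∀ γ : Gamma0 N, (∀ j, |vec f part γ j| ≤ (N : ℝ) ^ K) →
            (({j | vec f part γ j ≠ 0 ∧ |vec f part γ j| < (N : ℝ) ^ (-A)}.ncard : ℕ) : ℝ) ≤
              (662 + K) / A * g) ∧
          (∀ (X : Set (Gamma0 N)) (P : Finset (Fin g)),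
            (∀ γ ∈ X, ∀ j, |vec f part γ j| ≤ (N : ℝ) ^ K) →
            (∀ γ ∈ X, ∀ j ∈ P, |vec f part γ j| ≤ (N : ℝ) ^ (-A)) →
            (Module.finrank ℝ (Submodule.span ℝ (vec f part '' X)) : ℝ) ≤
              g - P.card + (311 + 2 * K) / A * g) := by
  classical
  haveI : NeZero N := ⟨hN.ne_zero⟩
  obtain ⟨B, hB, hBm⟩ := newform_basis N hN
  have h2 : N ≠ 2 := by omega
  have hN0 : (0 : ℝ) < N := Nat.cast_pos.2 hN.pos
  have hN3 : (3 : ℝ) ≤ N := by exact_mod_cast h3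
  have hN1 : (1 : ℝ) ≤ N := by linarith
  obtain ⟨d1, d2, -⟩ := dimS hyp hN h2 hB
  have d3 := card_le hyp hN h2 hB
  let e : Fin B.card ≃ B := B.equivFin.symm
  have hrange : Set.range (fun j => (e j : S2 N)) = B := by
    ext x
    constructor
    · rintro ⟨j, rfl⟩
      exact (e j).2
    · intro hx
      exact ⟨e.symm ⟨x, hx⟩, by simp⟩
  have hbd : ∀ (γ : Gamma0 N) (k : ℝ), 0 ≤ k → |(((γ : SL(2, ℤ)) 1 0 : ℤ) : ℝ)| ≤ (N : ℝ) ^ k →
      ∀ j, ‖H (e j : S2 N) γ‖ ≤ (N : ℝ) ^ (2 * k + 2) := by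
    intro γ k hk hγ j
    rw [H_eq]
    obtain ⟨ε, hε⟩ := hB.newf (e j).1 (e j).2
    refine (per_bd (e j).1 (coef N hN (e j).1 ε hε) γ _ (Real.one_le_rpow hN1 hk) hγ).trans ?_
    have e1 : (N : ℝ) ^ (2 * k + 2) = ((N : ℝ) ^ k) ^ 2 * (N : ℝ) ^ 2 := by
      rw [Real.rpow_add hN0, mul_comm 2 k, Real.rpow_mul hN0.le,
        show (2 : ℝ) = ((2 : ℕ) : ℝ) by norm_num, Real.rpow_natCast, Real.rpow_natCast]
    rw [e1]
    have e2 : (0 : ℝ) ≤ ((N : ℝ) ^ k) ^ 2 := by positivity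
    nlinarith [mul_nonneg e2 (by nlinarith : (0 : ℝ) ≤ (N : ℝ) ^ 2 - 8)]
  refine ⟨B.card, fun j => (e j : S2 N), fun i j h => e.injective (Subtype.ext h), ?_, ?_, d2,
    by omega, hbd, ?_⟩
  · rw [hrange]
    ext f
    exact hBm f
  · rw [hrange]
    exact hB.span
  intro part hp
  -- the two cases
  have hA : ∀ γ : Gamma0 N, 1 / (N : ℝ) ^ (662 * B.card) ≤
      ∏ f ∈ (Finset.univ : Finset B).filter (fun f => part (per f.1 γ) ≠ 0), |part (per f.1 γ)| := by
    intro γ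
    rcases hp with rfl | rfl
    · exact prod_re hN h2 hB γ
    · exact prod_im hN h2 hB γ
  have hD : ∀ γ : B → Gamma0 N, (Matrix.of fun i f : B => part (per f.1 (γ i))).det ≠ 0 →
      1 / (N : ℝ) ^ (305 * B.card) ≤ |(Matrix.of fun i f : B => part (per f.1 (γ i))).det| := by
    intro γ h
    rcases hp with rfl | rfl
    · exact det_re hN h2 hB γ h
    · exact det_im hN h2 hB γ h
  have hR : ∀ (K A : ℝ), 0 ≤ K → 0 < A → ∀ (X : Set (Gamma0 N)) (P : Finset B),
      (∀ γ ∈ X, ∀ f : B, |part (per f.1 γ)| ≤ (N : ℝ) ^ K) →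
      (∀ γ ∈ X, ∀ f ∈ P, |part (per f.1 γ)| ≤ (N : ℝ) ^ (-A)) →
      (Module.finrank ℝ (Submodule.span ℝ ((fun γ => fun f : B => part (per f.1 γ)) '' X)) : ℝ) +
        P.card ≤ B.card + (311 + 2 * K) / A * B.card := by
    intro K A hK hA' X P h4 h5
    rcases hp with rfl | rfl
    · exact rank_part hN h2 hB 1 1 (Or.inl rfl) Complex.re re_part K A hK hA' X P h4 h5
    · exact rank_part hN h2 hB (-1) Complex.I (Or.inr rfl) Complex.im im_part K A hK hA' X P h4 h5
  have hpow : ∀ m : ℕ, (N : ℝ) ^ (-((m : ℝ) * (B.card : ℝ))) = 1 / (N : ℝ) ^ (m * B.card) := by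
    intro m
    rw [Real.rpow_neg hN0.le, one_div]
    congr 1
    rw [show (m : ℝ) * (B.card : ℝ) = ((m * B.card : ℕ) : ℝ) by push_cast; rfl, Real.rpow_natCast]
  have hvec : ∀ (γ : Gamma0 N) (j : Fin B.card), vec (fun j => (e j : S2 N)) part γ j =
      part (per (e j).1 γ) := by
    intro γ j
    unfold vec
    rw [H_eq]
  have hprod : ∀ γ : Gamma0 N, (N : ℝ) ^ (-(662 * (B.card : ℝ))) ≤
      ∏ j with vec (fun j => (e j : S2 N)) part γ j ≠ 0, |vec (fun j => (e j : S2 N)) part γ j| := by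
    intro γ
    have h4 := hpow 662
    push_cast at h4
    rw [h4]
    refine (hA γ).trans (le_of_eq ?_)
    rw [Finset.prod_filter, Finset.prod_filter, ← Equiv.prod_comp e]
    refine Finset.prod_congr rfl fun j _ => ?_
    rw [hvec]
  refine ⟨hprod, ?_, ?_⟩
  · intro γ hdet
    have h4 := hpow 305
    push_cast at h4
    rw [h4]
    have h5 : (Matrix.of fun i => vec (fun j => (e j : S2 N)) part (γ i)) =
        (Matrix.of fun i f : B => part (per f.1 (γ (e.symm i)))).submatrix e e := by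
      ext i j
      simp [hvec]
    rw [h5, Matrix.det_submatrix_equiv_self] at hdet ⊢
    exact hD (fun i => γ (e.symm i)) hdet
  intro K A hK hA'
  refine ⟨fun γ hγ => ?_, fun X P hXK hXP => ?_⟩
  · have h4 := Fin.count (Finset.univ : Finset (Fin B.card))
      (fun j => |vec (fun j => (e j : S2 N)) part γ j|) (N : ℝ) 662 K A (by linarith) hA'
      (by norm_num) hK (fun j _ => abs_nonneg _) (fun j _ => hγ j) ?_
    · rw [Finset.card_univ, Fintype.card_fin] at h4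
      refine le_trans (Nat.cast_le.2 ?_) h4
      rw [Set.ncard_eq_toFinset_card']
      refine Finset.card_le_card fun j hj => ?_
      simpa using hj
    · rw [Finset.card_univ, Fintype.card_fin]
      refine (hprod γ).trans (le_of_eq ?_)
      refine Finset.prod_congr ?_ fun _ _ => rfl
      ext j
      simp
  · have h4 := hR K A hK hA' X (P.map e.toEmbedding)
      (fun γ hγ f => by
        have := hXK γ hγ (e.symm f)
        rw [hvec, Equiv.apply_symm_apply] at this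
        exact this)
      (fun γ hγ f hf => by
        rw [Finset.mem_map] at hf
        obtain ⟨j, hj, rfl⟩ := hf
        have := hXP γ hγ j hj
        rw [hvec] at this
        exact this)
    rw [Finset.card_map] at h4
    have h5 : vec (fun j => (e j : S2 N)) part '' X = (LinearEquiv.funCongrLeft ℝ ℝ e) ''
        ((fun γ => fun f : B => part (per f.1 γ)) '' X) := by
      rw [Set.image_image]
      refine Set.image_congr fun γ _ => ?_
      funext j
      rw [hvec]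
      rfl
    have h6 : Module.finrank ℝ (Submodule.span ℝ (vec (fun j => (e j : S2 N)) part '' X)) =
        Module.finrank ℝ (Submodule.span ℝ ((fun γ => fun f : B => part (per f.1 γ)) '' X)) := by
      rw [h5]
      have h7 : Submodule.span ℝ ((LinearEquiv.funCongrLeft ℝ ℝ e) ''
          ((fun γ => fun f : B => part (per f.1 γ)) '' X)) =
          Submodule.map ((LinearEquiv.funCongrLeft ℝ ℝ e : (B → ℝ) ≃ₗ[ℝ] (Fin B.card → ℝ)) :
            (B → ℝ) →ₗ[ℝ] (Fin B.card → ℝ))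
          (Submodule.span ℝ ((fun γ => fun f : B => part (per f.1 γ)) '' X)) := by
        rw [Submodule.map_span]
        rfl
      rw [h7]
      exact LinearEquiv.finrank_map_eq _ _
    rw [h6]
    linarith

end Pool.Agent.Results.MP_bde085_nt.ShimuraMapOnAverage
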