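import Pool.Agent.H50.SV.Fin

/-!
# MP_bde085_nt: semistable levels, central values for conductors at most `√N`

Let `f` be a newform of squarefree level `N` (the isogeny classes of semistable elliptic curves). For
a primitive Dirichlet character `χ` of ANY conductor `d` (prime to `N` or not) let `L(f, χ, 1)` be the
Abel sum of `∑ χ(k) a(k) / k`. The following statements are equivalent; all of them are about the
newforms of squarefree level.

1. There are `κ`, `C` such that the coordinates `m(γ)`, `n(γ)` are at most `C N ^ κ` for all
   `γ ∈ Γ₀(N)` with entries at most `N ^ 2` (question Q1 for squarefree levels).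
2. There are `κ`, `C` such that `|L(f, χ, 1)| ≤ C N ^ κ Ω₁` for all even and
   `|L(f, χ, 1)| ≤ C N ^ κ Im(Ω₂)` for all odd primitive characters `χ` with conductor at most `√N`.
3. For each `A` the same as 2 for all conductors at most `N ^ A`, where `κ`, `C` depend on `A`.
4. The same for all conductors `d`, with an additional factor `√d (1 + log d)`.

Moreover, for each newform of squarefree level `N` the values `L(f, χ, 1)` exist for all primitive `χ`,
and if `|L(f, χ, 1)| ≤ X` for all even primitive `χ` with conductor at most `√N`, then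
`|Re H(γ)| ≤ 2 N ^ 2 X (1 + log₂ |c|)` for all `γ ∈ Γ₀(N)` with lower left entry `c ≠ 0`; the same is
true for the odd characters and `Im H(γ)`.

In the library the corresponding result for all levels (`TwistedCentralValues`) needs the conductors up
to `9 * 64 ^ ω(N) * N` and covers only the conductors prime to `N`.

Proof. The trace of `f` to level `N / q` is zero for each prime `q ∣ N`; with the Atkin-Lehner equation
this gives `a(q n) = a(q) a(n)` and `a(q) = ± 1`. So the boundary values `P(r)` of `F` satisfy
`∑_j P((r + j) / q) = a(q) P(r)`, the sums `∑ χ(b) P(b / d)` for the imprimitive characters reduce to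
those of the primitive ones also at the primes dividing `N`, and the values `P(r)` with denominators at
most `√N`, which control everything by the library theorem `SqrtDenominators`, are bounded by the
central values with conductors at most `√N`.
-/

set_option autoImplicit false

namespace Pool.Agent.Results.MP_bde085_nt.SqrtConductors

open Pool.Agent.TH133.SH Pool.Agent.H50.SV DirichletCharacter
open Pool.Agent.K4H24.SZ (IsSemistable SemistableEntries)
open Pool.Agent.K4H67.TV (HasLVal)

/-- **For newforms of squarefree level `N` the polynomial bound for the Shimura map on matrices with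
entries at most `N ^ 2` is equivalent to the polynomial bound for the central values `L(f, χ, 1)`,
divided by the periods, for the characters `χ` with conductors at most `√N`.** -/
theorem result :
    (∀ N : ℕ, 1 ≤ N → ∀ a : ℕ → ℤ, IsSemistable N a →
      (∀ d : ℕ, 1 ≤ d → ∀ χ : DirichletCharacter ℂ d, χ.IsPrimitive → ∃ L : ℂ, HasLVal a χ L) ∧
      ∀ X : ℝ, 0 ≤ X →
        ((∀ d : ℕ, 1 ≤ d → d ^ 2 ≤ N → ∀ χ : DirichletCharacter ℂ d, χ.IsPrimitive → χ.Even →
            ∀ L : ℂ, HasLVal a χ L → ‖L‖ ≤ X) →
          ∀ p q r s : ℤ, p * s - q * r = 1 → (N : ℤ) ∣ r → r ≠ 0 →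
            |(Hval a p q r s).re| ≤ 2 * ((N : ℝ) ^ 2 * X) * (Nat.log 2 r.natAbs + 1)) ∧
        ((∀ d : ℕ, 1 ≤ d → d ^ 2 ≤ N → ∀ χ : DirichletCharacter ℂ d, χ.IsPrimitive → χ.Odd →
            ∀ L : ℂ, HasLVal a χ L → ‖L‖ ≤ X) →
          ∀ p q r s : ℤ, p * s - q * r = 1 → (N : ℤ) ∣ r → r ≠ 0 →
            |(Hval a p q r s).im| ≤ 2 * ((N : ℝ) ^ 2 * X) * (Nat.log 2 r.natAbs + 1))) ∧
    List.TFAE [SemistableEntries 2, SqrtConductors, ∀ A : ℕ, ConductorsAtMost A, AllConductors] :=
  ⟨fun _ hN _ ha => ⟨fun _ hd _ hχ => exists_lval hN ha hd hχ, fun _ hX => parity_bound hN ha hX⟩,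
    main⟩

end Pool.Agent.Results.MP_bde085_nt.SqrtConductors
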